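import Pool.Agent.Helper43.FV.SpecG

/-!
# `ST_GM`: the local rings of the points of a normal variety form a model
-/

set_option autoImplicit false

namespace Pool.Agent.Helper43.FV

open Pool.Agent.Helper43.RS
open scoped ComplexConjugate TensorProduct
open MvPolynomial

variable {X : Type}

section Basic

variable {𝒜 : Atlas X} {K : Type} [Field K] [Algebra ℂ K]
  {cr : Fin 𝒜.k → MvPolynomial (Fin 𝒜.n) ℂ →ₐ[ℂ] K}

/-- evaluation of polynomials in rational functions -/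
theorem GM_aeval (hA : ∀ f x c g d, Ev cr f x c → Ev cr g x d → Ev cr (f + g) x (c + d))
    (hM : ∀ f x c g d, Ev cr f x c → Ev cr g x d → Ev cr (f * g) x (c * d))
    (hC : ∀ x c, Ev cr (algebraMap ℂ K c) x c) {σ : Type} (v : σ → K) (c : σ → ℂ) (y : X)
    (h : ∀ s, Ev cr (v s) y (c s)) (p : MvPolynomial σ ℂ) : Ev cr (aeval v p) y (eval c p) := by
  induction p using MvPolynomial.induction_on with
  | C a =>
    rw [aeval_C, eval_C]
    exact hC y a
  | add p q hp hq =>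
    rw [map_add, map_add]
    exact hA _ _ _ _ _ hp hq
  | mul_X p s hp =>
    rw [map_mul, map_mul, aeval_X, eval_X]
    exact hM _ _ _ _ _ hp (h s)

/-- values can be computed at `y` if the local ring of `x` is contained in the one of `y` -/
theorem GM_val (hU : ∀ f x c c', Ev cr f x c → Ev cr f x c' → c = c')
    (hA : ∀ f x c g d, Ev cr f x c → Ev cr g x d → Ev cr (f + g) x (c + d))
    (hM : ∀ f x c g d, Ev cr f x c → Ev cr g x d → Ev cr (f * g) x (c * d))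
    (hI : ∀ f x c, Ev cr f x c → c ≠ 0 → Ev cr f⁻¹ x c⁻¹)
    (hC : ∀ x c, Ev cr (algebraMap ℂ K c) x c) {x y : X}
    (hxy : ∀ f, (∃ c, Ev cr f x c) → ∃ c, Ev cr f y c) {f : K} {c : ℂ} (h : Ev cr f x c) :
    Ev cr f y c := by
  obtain ⟨c', hc'⟩ := hxy f ⟨c, h⟩
  by_contra hcon
  have hne : c - c' ≠ 0 := by
    intro h0
    apply hcon
    rw [sub_eq_zero.1 h0]
    exact hc'
  set g : K := f + algebraMap ℂ K (-c') with hg
  have h1 : Ev cr g x (c - c') := by
    have := hA _ _ _ _ _ h (hC x (-c'))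
    rwa [← sub_eq_add_neg] at this
  have h2 : Ev cr g y 0 := by
    have := hA _ _ _ _ _ hc' (hC y (-c'))
    rwa [add_neg_cancel] at this
  obtain ⟨d, hd⟩ := hxy g⁻¹ ⟨_, hI _ _ _ h1 hne⟩
  have hg0 : g ≠ 0 := by
    intro h0
    have h3 : Ev cr g x 0 := by
      rw [h0]
      have := hC x 0
      rwa [map_zero] at this
    exact hne (hU _ _ _ _ h1 h3)
  have h4 := hM _ _ _ _ _ h2 hd
  rw [mul_inv_cancel₀ hg0, zero_mul] at h4
  have h5 := hC y 1
  rw [map_one] at h5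
  exact one_ne_zero (hU _ _ _ _ h5 h4)

/-- points with comparable local rings are equal -/
theorem GM_inj (hV : IsNormalVariety 𝒜)
    (hU : ∀ f x c c', Ev cr f x c → Ev cr f x c' → c = c')
    (hA : ∀ f x c g d, Ev cr f x c → Ev cr g x d → Ev cr (f + g) x (c + d))
    (hM : ∀ f x c g d, Ev cr f x c → Ev cr g x d → Ev cr (f * g) x (c * d))
    (hI : ∀ f x c, Ev cr f x c → c ≠ 0 → Ev cr f⁻¹ x c⁻¹)
    (hC : ∀ x c, Ev cr (algebraMap ℂ K c) x c)
    (hP : ∀ i p x, x ∈ 𝒜.U i → Ev cr (cr i p) x (eval (𝒜.φ i x) p))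
    (hE : ∀ f g, (∃ i, ∃ x ∈ 𝒜.U i, ∃ q, eval (𝒜.φ i x) q ≠ 0 ∧ ∀ y ∈ 𝒜.U i,
        eval (𝒜.φ i y) q ≠ 0 → ∃ c, Ev cr f y c ∧ Ev cr g y c) → f = g) {x y : X}
    (hxy : ∀ f, (∃ c, Ev cr f x c) → ∃ c, Ev cr f y c) : x = y := by
  obtain ⟨i, hi⟩ := hV.cover x
  obtain ⟨j, hj⟩ := hV.cover y
  obtain ⟨I, hIs⟩ := hV.sep i j
  rw [hIs x hi y hj]
  intro p hp
  set v : Fin 𝒜.n ⊕ Fin 𝒜.n → K :=
    Sum.elim (fun l => cr i (MvPolynomial.X l)) (fun l => cr j (MvPolynomial.X l)) with hv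
  have hvz : ∀ z z' : X, z ∈ 𝒜.U i → z' ∈ 𝒜.U j →
      (∀ l, Ev cr (cr i (MvPolynomial.X l)) z' (𝒜.φ i z l)) →
      ∀ s, Ev cr (v s) z' (Sum.elim (𝒜.φ i z) (𝒜.φ j z') s) := by
    rintro z z' hz hz' h (l | l)
    · exact h l
    · have := hP j (MvPolynomial.X l) z' hz'
      rwa [eval_X] at this
  have h0 : aeval v p = 0 := by
    obtain ⟨z, hzi, hzj⟩ := hV.irreducible i j
    obtain ⟨q, _, hq, hq'⟩ := hV.trans i j z hzi hzj
    apply hE
    refine ⟨i, z, hzi, q, hq, ?_⟩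
    intro w hw hqw
    have hwj : w ∈ 𝒜.U j := (hq' w hw hqw).1
    refine ⟨0, ?_, ?_⟩
    · have h1 := GM_aeval hA hM hC v _ w (hvz w w hw hwj (fun l => by
        have := hP i (MvPolynomial.X l) w hw
        rwa [eval_X] at this)) p
      rwa [(hIs w hw w hwj).1 rfl p hp] at h1
    · have := hC w 0
      rwa [map_zero] at this
  have h1 := GM_aeval hA hM hC v _ y (hvz x y hi hj (fun l => by
    have := hP i (MvPolynomial.X l) x hi
    rw [eval_X] at this
    exact GM_val hU hA hM hI hC hxy this)) p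
  rw [h0] at h1
  have h2 := hC y 0
  rw [map_zero] at h2
  exact hU _ _ _ _ h1 h2

/-- the coordinate algebra of a chart -/
theorem GM_chart (hV : IsNormalVariety 𝒜) (hK : IsFunK 𝒜 cr) (i : Fin 𝒜.k) :
    IsChart (cr i).range where
  fg := by
    rw [← Algebra.map_top]
    exact Subalgebra.FG.map _ Algebra.FiniteType.out
  ic := by
    have : IsDomain (polyFun (𝒜.φ i '' 𝒜.U i)) := hV.domain i
    have : IsIntegrallyClosed (polyFun (𝒜.φ i '' 𝒜.U i)) := hV.normal i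
    have hker : RingHom.ker (cr i).rangeRestrict =
        RingHom.ker (AlgHom.pi (fun x : (𝒜.φ i '' 𝒜.U i : Set (Fin 𝒜.n → ℂ)) =>
          (aeval (x : Fin 𝒜.n → ℂ) : MvPolynomial (Fin 𝒜.n) ℂ →ₐ[ℂ] ℂ))).rangeRestrict := by
      ext p
      rw [RingHom.mem_ker, RingHom.mem_ker]
      have h1 : (cr i).rangeRestrict p = 0 ↔ cr i p = 0 := by
        rw [← Subtype.coe_inj]
        rfl
      rw [h1, hK.zero i p, ← Subtype.coe_inj]
      constructor
      · intro h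
        funext z
        obtain ⟨z, x, hx, rfl⟩ := z
        have := h x hx
        simpa [aeval_eq_eval] using this
      · intro h x hx
        have := congrFun h ⟨𝒜.φ i x, x, hx, rfl⟩
        simpa [aeval_eq_eval] using this
    let e1 := Ideal.quotientKerAlgEquivOfSurjective (cr i).rangeRestrict_surjective
    let e2 := Ideal.quotientKerAlgEquivOfSurjective (AlgHom.pi (fun x : (𝒜.φ i '' 𝒜.U i :
      Set (Fin 𝒜.n → ℂ)) => (aeval (x : Fin 𝒜.n → ℂ) :
        MvPolynomial (Fin 𝒜.n) ℂ →ₐ[ℂ] ℂ))).rangeRestrict_surjective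
    let e3 := Ideal.quotEquivOfEq hker
    let e : polyFun (𝒜.φ i '' 𝒜.U i) ≃+* (cr i).range :=
      (e2.symm.toRingEquiv.trans e3.symm).trans e1.toRingEquiv
    have : IsIntegrallyClosed (cr i).range := IsIntegrallyClosed.of_equiv e
    have : IsFractionRing (cr i).range K := by
      refine ⟨?_, ?_, ?_⟩
      · rintro ⟨y, hy⟩
        have h1 : (y : K) ≠ 0 := by
          intro h
          exact nonZeroDivisors.ne_zero hy (Subtype.ext h)
        exact IsUnit.mk0 _ h1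
      · intro f
        obtain ⟨p, q, hq, h⟩ := hK.frac i f
        refine ⟨⟨⟨cr i p, p, rfl⟩, ⟨⟨cr i q, q, rfl⟩, ?_⟩⟩, h⟩
        rw [mem_nonZeroDivisors_iff_ne_zero]
        intro h0
        exact hq (congrArg Subtype.val h0)
      · intro x y h
        exact ⟨1, by rw [Subtype.ext (show (x : K) = y from h)]⟩
    intro f hf
    obtain ⟨y, hy⟩ := (isIntegrallyClosed_iff K).1 ‹IsIntegrallyClosed (cr i).range› hf
    rw [← hy]
    exact y.2
  frac := by
    intro f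
    obtain ⟨p, q, hq, h⟩ := hK.frac i f
    exact ⟨⟨cr i p, p, rfl⟩, ⟨cr i q, q, rfl⟩, hq, h⟩

/-- the local ring of a point in a chart -/
theorem GM_loc (hK : IsFunK 𝒜 cr)
    (hR : ∀ f x c i, Ev cr f x c → x ∈ 𝒜.U i → ∃ p q, eval (𝒜.φ i x) q ≠ 0 ∧
        f * cr i q = cr i p ∧ c * eval (𝒜.φ i x) q = eval (𝒜.φ i x) p) (i : Fin 𝒜.k) (x : X)
    (hx : x ∈ 𝒜.U i) (ψ : (cr i).range →ₐ[ℂ] ℂ)
    (hψ : ∀ p, ψ ⟨cr i p, p, rfl⟩ = eval (𝒜.φ i x) p) (f : K) :
    f ∈ locAt (cr i).range ψ ↔ ∃ c, Ev cr f x c := by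
  rw [mem_locAt]
  constructor
  · rintro ⟨⟨_, p, rfl⟩, ⟨_, q, rfl⟩, h1, h2⟩
    have h1' : eval (𝒜.φ i x) q ≠ 0 := by
      rw [← hψ q]
      exact h1
    refine ⟨eval (𝒜.φ i x) p / eval (𝒜.φ i x) q, i, p, q, hx, h1', h2, ?_⟩
    field_simp
  · rintro ⟨c, hc⟩
    obtain ⟨p, q, h1, h2, -⟩ := hR f x c i hc hx
    refine ⟨⟨cr i p, p, rfl⟩, ⟨cr i q, q, rfl⟩, ?_, h2⟩
    rw [hψ q]
    exact h1

end Basic

/-- **GM** -/
theorem st_GM (hG : ST_GEV) : ST_GM := by
  intro X 𝒜 hV K _ _ cr hK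
  obtain ⟨hU, hA, hM, hI, hC, hP, hR, hE⟩ := hG X 𝒜 hV K cr hK
  have hinj : ∀ x y, (∀ f, (∃ c, Ev cr f x c) → ∃ c, Ev cr f y c) → x = y :=
    fun x y h => GM_inj hV hU hA hM hI hC hP hE h
  refine ⟨⟨?_, ?_⟩, hinj⟩
  · refine ⟨𝒜.k, fun i => (cr i).range, hV.charts, fun i => GM_chart hV hK i, ?_⟩
    intro O
    constructor
    · rintro ⟨x, hx⟩
      obtain ⟨i, hi⟩ := hV.cover x
      have hker : ∀ p : MvPolynomial (Fin 𝒜.n) ℂ, (cr i).rangeRestrict p = 0 →
          (aeval (𝒜.φ i x) : MvPolynomial (Fin 𝒜.n) ℂ →ₐ[ℂ] ℂ) p = 0 := by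
        intro p hp
        have h1 : cr i p = 0 := congrArg Subtype.val hp
        have := (hK.zero i p).1 h1 x hi
        simpa [aeval_eq_eval] using this
      let e1 := Ideal.quotientKerAlgEquivOfSurjective (cr i).rangeRestrict_surjective
      let ψ : (cr i).range →ₐ[ℂ] ℂ :=
        (Ideal.Quotient.liftₐ (RingHom.ker (cr i).rangeRestrict) (aeval (𝒜.φ i x))
          (fun p hp => hker p hp)).comp e1.symm.toAlgHom
      have hψ : ∀ p, ψ ⟨cr i p, p, rfl⟩ = eval (𝒜.φ i x) p := by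
        intro p
        have h1 : e1.symm ⟨cr i p, p, rfl⟩ = Ideal.Quotient.mk _ p := by
          rw [AlgEquiv.symm_apply_eq]
          rfl
        show (Ideal.Quotient.liftₐ (RingHom.ker (cr i).rangeRestrict) (aeval (𝒜.φ i x))
          (fun p hp => hker p hp)) (e1.symm ⟨cr i p, p, rfl⟩) = _
        rw [h1]
        have h2 : (Ideal.Quotient.liftₐ (RingHom.ker (cr i).rangeRestrict) (aeval (𝒜.φ i x))
          (fun p hp => hker p hp)) (Ideal.Quotient.mk _ p) = aeval (𝒜.φ i x) p := rfl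
        rw [h2, aeval_eq_eval]
      refine ⟨i, ψ, ?_⟩
      ext f
      rw [hx f, GM_loc hK hR i x hi ψ hψ f]
    · rintro ⟨i, ψ, rfl⟩
      -- the point of the chart
      let z : Fin 𝒜.n → ℂ := fun l => ψ ⟨cr i (MvPolynomial.X l), MvPolynomial.X l, rfl⟩
      have hz : ∀ p, ψ ⟨cr i p, p, rfl⟩ = eval z p := by
        intro p
        have h1 : (ψ.comp (cr i).rangeRestrict) = aeval z := by
          apply MvPolynomial.algHom_ext
          intro l
          rw [aeval_X]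
          rfl
        have h2 := DFunLike.congr_fun h1 p
        rw [aeval_eq_eval] at h2
        exact h2
      obtain ⟨I, hI'⟩ := hV.closed i
      have hzI : z ∈ 𝒜.φ i '' 𝒜.U i := by
        rw [hI']
        intro p hp
        rw [← hz p]
        have h1 : cr i p = 0 := by
          rw [hK.zero]
          intro x hx
          have h2 : 𝒜.φ i x ∈ 𝒜.φ i '' 𝒜.U i := ⟨x, hx, rfl⟩
          rw [hI'] at h2
          exact h2 p hp
        have h3 : (⟨cr i p, p, rfl⟩ : (cr i).range) = 0 := Subtype.ext h1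
        rw [h3, map_zero]
      obtain ⟨x, hx, hxz⟩ := hzI
      refine ⟨x, fun f => ?_⟩
      exact GM_loc hK hR i x hx ψ (fun p => by rw [hz p, hxz]) f
  · rintro O ⟨x, hx⟩ O' ⟨y, hy⟩ hle
    have hxy : x = y := hinj x y (fun f hf => (hy f).1 (hle ((hx f).2 hf)))
    subst hxy
    ext f
    rw [hx f, hy f]

end Pool.Agent.Helper43.FV
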