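import Pool.Agent.Helper5.FV.Stmts

/-! FV: row MIX. -/

set_option autoImplicit false

open Finset Pool.Agent.Helper8.UN

namespace Pool.Agent.Helper5.FV

theorem mix_cosh (ε : ℝ) : (1 + Real.exp ε) ^ 2 ≤ 4 * Real.exp ε * Real.exp (ε ^ 2) := by
  have h1 : Real.cosh (ε / 2) ≤ Real.exp ((ε / 2) ^ 2 / 2) := Real.cosh_le_exp_half_sq _
  have h0 : 0 ≤ Real.cosh (ε / 2) := (Real.cosh_pos _).le
  have h2 : Real.cosh (ε / 2) ^ 2 ≤ Real.exp (ε ^ 2) := by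
    calc Real.cosh (ε / 2) ^ 2 ≤ Real.exp ((ε / 2) ^ 2 / 2) ^ 2 := by gcongr
      _ = Real.exp (ε ^ 2 / 4) := by rw [← Real.exp_nat_mul]; congr 1; push_cast; ring
      _ ≤ Real.exp (ε ^ 2) := by apply Real.exp_le_exp.mpr; nlinarith [sq_nonneg ε]
  have h3 : (1 + Real.exp ε) ^ 2 = 4 * Real.exp ε * Real.cosh (ε / 2) ^ 2 := by
    have e1 : Real.exp (ε / 2) * Real.exp (ε / 2) = Real.exp ε := by
      rw [← Real.exp_add]; congr 1; ring
    have e2 : Real.exp (ε / 2) * Real.exp (-(ε / 2)) = 1 := by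
      rw [← Real.exp_add]; simp
    rw [Real.cosh_eq]
    have e3 : Real.exp (ε / 2) * (Real.exp (ε / 2) + Real.exp (-(ε / 2))) = 1 + Real.exp ε := by
      rw [mul_add, e1, e2]; ring
    rw [← e3, ← e1]; ring
  rw [h3]
  have : 0 ≤ 4 * Real.exp ε := by positivity
  exact mul_le_mul_of_nonneg_left h2 this

theorem st_MIX : ST_MIX := by
  intro ι C G a t b s s' ε η ρ hGC hC hG hs hε hη hη2 hρ h1 h2 h3 hA hT hB
  obtain ⟨A, hAd⟩ : ∃ A, A = ∑ c ∈ G, a c := ⟨_, rfl⟩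
  obtain ⟨T, hTd⟩ : ∃ T, T = ∑ c ∈ G, t c := ⟨_, rfl⟩
  obtain ⟨B, hBd⟩ : ∃ B, B = ∑ c ∈ G, b c := ⟨_, rfl⟩
  obtain ⟨A', hA'd⟩ : ∃ A, A = ∑ c ∈ C, a c := ⟨_, rfl⟩
  obtain ⟨T', hT'd⟩ : ∃ T, T = ∑ c ∈ C, t c := ⟨_, rfl⟩
  obtain ⟨B', hB'd⟩ : ∃ B, B = ∑ c ∈ C, b c := ⟨_, rfl⟩
  have hA0 : 0 ≤ A := by rw [hAd]; exact sum_nonneg fun c hc => (hG c hc).1.le
  have hT0 : 0 ≤ T := by rw [hTd]; exact sum_nonneg fun c hc => (hG c hc).2.1.le
  have hB0 : 0 ≤ B := by rw [hBd]; exact sum_nonneg fun c hc => (hG c hc).2.2.le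
  have hA'0 : 0 ≤ A' := by rw [hA'd]; exact sum_nonneg fun c hc => (hC c hc).1
  have hT'0 : 0 ≤ T' := by rw [hT'd]; exact sum_nonneg fun c hc => (hC c hc).2.1
  have hB'0 : 0 ≤ B' := by rw [hB'd]; exact sum_nonneg fun c hc => (hC c hc).2.2
  have hAA : A ≤ A' := by
    rw [hAd, hA'd]; exact sum_le_sum_of_subset_of_nonneg hGC fun c hc _ => (hC c hc).1
  have hTT : T ≤ T' := by
    rw [hTd, hT'd]; exact sum_le_sum_of_subset_of_nonneg hGC fun c hc _ => (hC c hc).2.1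
  have hBB : B ≤ B' := by
    rw [hBd, hB'd]; exact sum_le_sum_of_subset_of_nonneg hGC fun c hc _ => (hC c hc).2.2
  rw [← hA'd, ← hAd] at hA
  rw [← hT'd, ← hTd] at hT
  rw [← hB'd, ← hBd] at hB
  rw [← hA'd, ← hT'd, ← hB'd]
  have hη1 : 0 ≤ 1 - η := by linarith
  have he := Real.exp_pos ε
  constructor
  · have hpt : ∀ c ∈ G, (1 + s) * b c + ρ ^ 2 * Real.exp ε * a c ≤
        ρ * (1 + Real.exp ε) * t c := by
      intro c hc
      have ha := (hG c hc).1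
      have g1 := h1 c hc
      obtain ⟨g2, g3⟩ := h3 c hc
      have g4 : 0 ≤ (t c - ρ * a c) * (ρ * Real.exp ε * a c - t c) :=
        mul_nonneg (by linarith) (by linarith)
      refine le_of_mul_le_mul_left ?_ ha
      nlinarith
    have hsum : (1 + s) * B + ρ ^ 2 * Real.exp ε * A ≤ ρ * (1 + Real.exp ε) * T := by
      rw [hBd, hAd, hTd, mul_sum, mul_sum, mul_sum, ← sum_add_distrib]
      exact sum_le_sum hpt
    have hl0 : 0 ≤ (1 + s) * B + ρ ^ 2 * Real.exp ε * A := by positivity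
    have hsq : ((1 + s) * B + ρ ^ 2 * Real.exp ε * A) ^ 2 ≤ (ρ * (1 + Real.exp ε) * T) ^ 2 :=
      pow_le_pow_left₀ hl0 hsum 2
    have hag : 4 * (((1 + s) * B) * (ρ ^ 2 * Real.exp ε * A)) ≤
        ((1 + s) * B + ρ ^ 2 * Real.exp ε * A) ^ 2 := by
      nlinarith [sq_nonneg ((1 + s) * B - ρ ^ 2 * Real.exp ε * A)]
    have hk : (4 * Real.exp ε * ρ ^ 2) * ((1 + s) * (A * B)) ≤
        (4 * Real.exp ε * ρ ^ 2) * (Real.exp (ε ^ 2) * T ^ 2) := by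
      have h5 := mix_cosh ε
      have h6 : 0 ≤ ρ ^ 2 * T ^ 2 := by positivity
      have h7 := mul_le_mul_of_nonneg_left h5 h6
      calc (4 * Real.exp ε * ρ ^ 2) * ((1 + s) * (A * B))
          = 4 * (((1 + s) * B) * (ρ ^ 2 * Real.exp ε * A)) := by ring
        _ ≤ (ρ * (1 + Real.exp ε) * T) ^ 2 := hag.trans hsq
        _ = ρ ^ 2 * T ^ 2 * (1 + Real.exp ε) ^ 2 := by ring
        _ ≤ ρ ^ 2 * T ^ 2 * (4 * Real.exp ε * Real.exp (ε ^ 2)) := h7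
        _ = (4 * Real.exp ε * ρ ^ 2) * (Real.exp (ε ^ 2) * T ^ 2) := by ring
    have hk2 : (1 + s) * (A * B) ≤ Real.exp (ε ^ 2) * T ^ 2 :=
      le_of_mul_le_mul_left hk (by positivity)
    have hk3 : ((1 - η) * A') * ((1 - η) * B') ≤ A * B :=
      mul_le_mul hA hB (by positivity) hA0
    calc (1 + s) * (1 - η) ^ 2 * (A' * B') = (1 + s) * (((1 - η) * A') * ((1 - η) * B')) := by ring
      _ ≤ (1 + s) * (A * B) := mul_le_mul_of_nonneg_left hk3 (by linarith)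
      _ ≤ Real.exp (ε ^ 2) * T ^ 2 := hk2
      _ ≤ Real.exp (ε ^ 2) * T' ^ 2 := by gcongr
  · have hcs : T ^ 2 ≤ (∑ c ∈ G, Real.exp s' * a c) * ∑ c ∈ G, b c := by
      rw [hTd]
      apply sum_sq_le_sum_mul_sum_of_sq_le_mul
      · intro c hc; exact mul_nonneg (Real.exp_pos _).le (hG c hc).1.le
      · intro c hc; exact (hG c hc).2.2.le
      · intro c hc; have := h2 c hc; rw [mul_assoc]; exact this
    rw [← mul_sum, ← hAd, ← hBd] at hcs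
    calc (1 - η) ^ 2 * T' ^ 2 = ((1 - η) * T') ^ 2 := by ring
      _ ≤ T ^ 2 := pow_le_pow_left₀ (by positivity) hT 2
      _ ≤ Real.exp s' * A * B := hcs
      _ = Real.exp s' * (A * B) := by ring
      _ ≤ Real.exp s' * (A' * B') := by gcongr

end Pool.Agent.Helper5.FV
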